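import Mathlib

set_option autoImplicit false

/-!
# Omega-categorical structures: definitions
-/

namespace Pool.Agent.R603

open FirstOrder FirstOrder.Language

/-- The structure `Ω` is ω-categorical: its first-order theory has exactly one countable model up to
isomorphism. -/
def OmegaCategorical (L : FirstOrder.Language.{0, 0}) (Ω : Type) [L.Structure Ω] : Prop :=
  ∀ (B : Type) [L.Structure B] [Countable B], B ⊨ L.completeTheory Ω → Nonempty (Ω ≃[L] B)

/-- The automorphism group of `Ω` has finitely many orbits on `Ω ^ n` for every `n`. -/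
def OligomorphicAut (L : FirstOrder.Language.{0, 0}) (Ω : Type) [L.Structure Ω] : Prop :=
  ∀ n : ℕ, ∃ S : Finset (Fin n → Ω), ∀ v : Fin n → Ω, ∃ s ∈ S, ∃ g : Ω ≃[L] Ω, ∀ i, g (s i) = v i

end Pool.Agent.R603
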