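import Mathlib

set_option autoImplicit false

/-!
# Compactness modulo an oligomorphic group
-/

namespace Pool.Agent.R603

open Filter Topology

/-- A set `G` of permutations which has finitely many orbits on the `n`-tuples, in the form in
which it is used: for every `n` there is a finite set `T` of sequences such that every sequence
agrees on the first `n` coordinates with the image of a member of `T` under an element of `G`. -/
def OligSet {Ω : Type*} (G : Subgroup (Equiv.Perm Ω)) : Prop :=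
  ∀ n : ℕ, ∃ T : Set (ℕ → Ω), T.Finite ∧ ∀ s : ℕ → Ω, ∃ t ∈ T, ∃ g ∈ G, ∀ k < n, g (s k) = t k

/-- **Compactness.** -/
theorem compact_seq {Ω : Type*} {G : Subgroup (Equiv.Perm Ω)} (hG : OligSet G) {J : Type*}
    (U : Ultrafilter J) (x : J → ℕ → Ω) :
    ∃ y : ℕ → Ω, ∀ n : ℕ, ∀ᶠ j in (U : Filter J), ∃ g ∈ G, ∀ k < n, g (x j k) = y k := by
  classical
  -- the limit orbits
  have h1 : ∀ n : ℕ, ∃ t : ℕ → Ω, ∀ᶠ j in (U : Filter J), ∃ g ∈ G, ∀ k < n, g (x j k) = t k := by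
    intro n
    obtain ⟨T, hT, hs⟩ := hG n
    have : ∀ᶠ j in (U : Filter J), ∃ t ∈ T, ∃ g ∈ G, ∀ k < n, g (x j k) = t k :=
      Eventually.of_forall fun j => hs (x j)
    obtain ⟨t, -, ht⟩ := (Ultrafilter.eventually_exists_mem_iff hT).1 this
    exact ⟨t, ht⟩
  choose t ht using h1
  -- recursive construction
  have step : ∀ (n : ℕ) (s : ℕ → Ω), (∃ g ∈ G, ∀ k < n, g (s k) = t n k) →
      ∃ s' : ℕ → Ω, (∀ k < n, s' k = s k) ∧ ∃ g ∈ G, ∀ k < n + 1, g (s' k) = t (n + 1) k := by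
    rintro n s ⟨g, hg, hgs⟩
    obtain ⟨j, ⟨g1, hg1, h1⟩, ⟨g2, hg2, h2⟩⟩ := ((ht n).and (ht (n + 1))).exists
    refine ⟨fun k => g⁻¹ (g1 (x j k)), ?_, g2 * g1⁻¹ * g, ?_, ?_⟩
    · intro k hk
      change g⁻¹ (g1 (x j k)) = s k
      rw [h1 k hk, ← hgs k hk]
      simp
    · exact G.mul_mem (G.mul_mem hg2 (G.inv_mem hg1)) hg
    · intro k hk
      simp [h2 k hk]
  let S : (n : ℕ) → {s : ℕ → Ω // ∃ g ∈ G, ∀ k < n, g (s k) = t n k} := fun n =>
    Nat.rec ⟨t 0, 1, G.one_mem, fun k hk => absurd hk (Nat.not_lt_zero k)⟩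
      (fun n s => ⟨(step n s.1 s.2).choose, (step n s.1 s.2).choose_spec.2⟩) n
  have hS : ∀ n, ∀ k < n, (S (n + 1)).1 k = (S n).1 k := fun n =>
    (step n (S n).1 (S n).2).choose_spec.1
  have hS' : ∀ n m, n ≤ m → ∀ k < n, (S m).1 k = (S n).1 k := by
    intro n m hnm
    induction m, hnm using Nat.le_induction with
    | base => intro k _; rfl
    | succ m hm ih =>
      intro k hk
      rw [hS m k (lt_of_lt_of_le hk hm), ih k hk]
  refine ⟨fun k => (S (k + 1)).1 k, fun n => ?_⟩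
  obtain ⟨g, hg, hgs⟩ := (S n).2
  filter_upwards [ht n] with j hj
  obtain ⟨g1, hg1, h1⟩ := hj
  refine ⟨g⁻¹ * g1, G.mul_mem (G.inv_mem hg) hg1, fun k hk => ?_⟩
  have e : (S (k + 1)).1 k = (S n).1 k := (hS' (k + 1) n hk k (Nat.lt_succ_self k)).symm
  simp only [e, Equiv.Perm.coe_mul, Function.comp_apply, h1 k hk, ← hgs k hk]
  simp

end Pool.Agent.R603
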