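import Pool.Agent.R603.Compact

set_option autoImplicit false

/-!
# Minimality of the topology of pointwise convergence
-/

namespace Pool.Agent.R603

open Filter Topology

/-- The topology of pointwise convergence on a set `E` of maps `Ω → Ω` (given by `φ`). -/
@[reducible] def pwTop {Ω E : Type*} (φ : E → Ω → Ω) : TopologicalSpace E :=
  TopologicalSpace.induced φ (@Pi.topologicalSpace Ω (fun _ => Ω) (fun _ => ⊥))

theorem mem_nhds_pwTop {Ω E : Type*} (φ : E → Ω → Ω) (e : E) (V : Set E) :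
    V ∈ @nhds E (pwTop φ) e ↔ ∃ F : Finset Ω, ∀ h : E, (∀ x ∈ F, φ h x = φ e x) → h ∈ V := by
  let _ : TopologicalSpace Ω := ⊥
  have : DiscreteTopology Ω := ⟨rfl⟩
  rw [pwTop, nhds_induced, Filter.mem_comap]
  constructor
  · rintro ⟨W, hW, hWV⟩
    rw [mem_nhds_iff] at hW
    obtain ⟨W', h1, h2, h3⟩ := hW
    obtain ⟨I, w, hw1, hw2⟩ := isOpen_pi_iff.1 h2 _ h3
    refine ⟨I, fun h hh => hWV (h1 (hw2 ?_))⟩
    intro x hx
    have := (hw1 x hx).2
    rw [hh x hx]
    exact this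
  · rintro ⟨F, hF⟩
    refine ⟨{f | ∀ x ∈ F, f x = φ e x}, ?_, fun h hh => hF h hh⟩
    have : {f : Ω → Ω | ∀ x ∈ F, f x = φ e x} = ⋂ x ∈ F, (fun f : Ω → Ω => f x) ⁻¹' {φ e x} := by
      ext f; simp
    rw [this]
    refine (isOpen_biInter_finset fun x _ => ?_).mem_nhds ?_
    · exact (isOpen_discrete _).preimage (continuous_apply x)
    · simp

/-- **Minimality.** Let `E` be a set of maps `Ω → Ω`, closed under composition and pointwise
limits, containing an oligomorphic permutation group. Then every Hausdorff topology on `E` for which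
the composition is jointly continuous and which is coarser than the topology of pointwise
convergence is equal to the topology of pointwise convergence. -/
theorem minimal {Ω : Type*} [Countable Ω] {E : Type*} (φ : E → Ω → Ω) (mul : E → E → E)
    (hmul : ∀ a b, φ (mul a b) = φ a ∘ φ b)
    (hclosed : ∀ f : Ω → Ω, (∀ F : Finset Ω, ∃ a : E, ∀ x ∈ F, φ a x = f x) → ∃ a, φ a = f)
    (G : Subgroup (Equiv.Perm Ω)) (hG : OligSet G) (hGE : ∀ g ∈ G, ∃ a : E, φ a = g)
    (τ : TopologicalSpace E) (hT2 : @T2Space E τ)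
    (hcont : @Continuous (E × E) E (@instTopologicalSpaceProd E E τ τ) τ fun p => mul p.1 p.2)
    (hle : pwTop φ ≤ τ) : τ = pwTop φ := by
  classical
  refine le_antisymm ?_ hle
  rw [pwTop, ← continuous_iff_le_induced]
  refine @continuous_pi _ _ _ _ (fun _ => ⊥) _ fun a => ?_
  let _ : TopologicalSpace Ω := ⊥
  have : DiscreteTopology Ω := ⟨rfl⟩
  rw [continuous_iff_continuousAt]
  intro f
  rw [ContinuousAt, congrFun (nhds_discrete Ω) (φ f a), tendsto_pure]
  by_contra hcon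
  -- an ultrafilter converging to `f`, with `h a ≠ f a` for almost all `h`
  have hne : NeBot (𝓝 f ⊓ 𝓟 {h : E | φ h a ≠ φ f a}) := by
    rw [← frequently_mem_iff_neBot]
    exact not_eventually.1 hcon
  let U : Ultrafilter E := Ultrafilter.of (𝓝 f ⊓ 𝓟 {h : E | φ h a ≠ φ f a})
  have hU : (U : Filter E) ≤ 𝓝 f ⊓ 𝓟 {h : E | φ h a ≠ φ f a} := Ultrafilter.of_le _
  have hU1 : (U : Filter E) ≤ 𝓝 f := hU.trans inf_le_left
  have hU2 : ∀ᶠ h in (U : Filter E), φ h a ≠ φ f a :=
    (hU.trans inf_le_right) (mem_principal_self _)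
  -- enumeration
  obtain ⟨idx, hidx⟩ := Countable.exists_injective_nat Ω
  have : Nonempty Ω := ⟨a⟩
  let e : ℕ → Ω := Function.invFun idx
  have he : ∀ ω, e (idx ω) = ω := Function.leftInverse_invFun hidx
  obtain ⟨y, hy⟩ := compact_seq hG U
    (fun h k => if k % 2 = 0 then e (k / 2) else φ h (e (k / 2)))
  let s : Ω → Ω := fun ω => y (2 * idx ω)
  let u : Ω → Ω := fun ω => y (2 * idx ω + 1)
  have key : ∀ F : Finset Ω, ∀ᶠ h in (U : Filter E), ∃ g ∈ G, ∀ ω ∈ F,
      g ω = s ω ∧ g (φ h ω) = u ω := by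
    intro F
    let n := (F.sup idx) * 2 + 2
    filter_upwards [hy n] with h hh
    obtain ⟨g, hg, hgk⟩ := hh
    refine ⟨g, hg, fun ω hω => ?_⟩
    have hle : idx ω ≤ F.sup idx := Finset.le_sup hω
    constructor
    · have := hgk (2 * idx ω) (by omega)
      rw [if_pos (by omega), show 2 * idx ω / 2 = idx ω by omega, he] at this
      exact this
    · have := hgk (2 * idx ω + 1) (by omega)
      rw [if_neg (by omega), show (2 * idx ω + 1) / 2 = idx ω by omega, he] at this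
      exact this
  obtain ⟨σ, hσ⟩ : ∃ σ, φ σ = s := by
    apply hclosed
    intro F
    obtain ⟨h, g, hg, hh⟩ := (key F).exists
    obtain ⟨γ, hγ⟩ := hGE g hg
    exact ⟨γ, fun x hx => by rw [hγ]; exact (hh x hx).1⟩
  obtain ⟨υ, hυ⟩ : ∃ υ, φ υ = u := by
    apply hclosed
    intro F
    obtain ⟨h, g, hg, hh⟩ := (key F).exists
    obtain ⟨γ, hγ⟩ := hGE g hg
    exact ⟨mul γ h, fun x hx => by rw [hmul, hγ]; exact (hh x hx).2⟩
  have huv : υ = mul σ f := by
    by_contra hne'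
    obtain ⟨V, W, hV, hW, hυV, hσW, hVW⟩ := t2_separation hne'
    have h1 : (fun p : E × E => mul p.1 p.2) ⁻¹' W ∈ 𝓝 (σ, f) :=
      hcont.continuousAt.preimage_mem_nhds (hW.mem_nhds hσW)
    rw [nhds_prod_eq, mem_prod_iff] at h1
    obtain ⟨W1, hW1, W2, hW2, h12⟩ := h1
    have hnb : ∀ (z : E) (Z : Set E), Z ∈ 𝓝 z → Z ∈ @nhds E (pwTop φ) z := fun z Z hZ =>
      (nhds_mono hle) hZ
    obtain ⟨F1, hF1⟩ := (mem_nhds_pwTop φ υ V).1 (hnb _ _ (hV.mem_nhds hυV))
    obtain ⟨F2, hF2⟩ := (mem_nhds_pwTop φ σ W1).1 (hnb _ _ hW1)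
    obtain ⟨h, ⟨g, hg, hh⟩, hhW⟩ := ((key (F1 ∪ F2)).and (hU1 hW2)).exists
    obtain ⟨γ, hγ⟩ := hGE g hg
    have h3 : γ ∈ W1 := hF2 γ fun x hx => by
      rw [hγ, hσ]; exact (hh x (Finset.mem_union_right _ hx)).1
    have h4 : mul γ h ∈ V := hF1 _ fun x hx => by
      rw [hmul, hγ, hυ]; exact (hh x (Finset.mem_union_left _ hx)).2
    have h5 : mul γ h ∈ W := h12 (Set.mk_mem_prod h3 hhW)
    exact Set.disjoint_left.1 hVW h4 h5
  obtain ⟨h, ⟨g, hg, hh⟩, hne2⟩ := ((key {a, φ f a}).and hU2).exists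
  have h1 := (hh a (by simp)).2
  have h2 := (hh (φ f a) (by simp)).1
  have h3 : u a = s (φ f a) := by
    rw [← hυ, huv, hmul, hσ]; rfl
  apply hne2
  apply g.injective
  rw [h1, h2, h3]

end Pool.Agent.R603
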