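import Pool.Agent.R603.Minimal

set_option autoImplicit false

/-!
# Closed transformation monoids: definitions
-/

namespace Pool.Agent.R603.Mon

open Filter Topology

/-- The topology of pointwise convergence on `Ω ^ Ω` (`Ω` discrete). -/
@[reducible] def fullTop (Ω : Type) : TopologicalSpace (Function.End Ω) :=
  @Pi.topologicalSpace Ω (fun _ => Ω) (fun _ => ⊥)

/-- The subspace topology of a transformation monoid `S`. -/
@[reducible] def top {Ω : Type} (S : Submonoid (Function.End Ω)) : TopologicalSpace S :=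
  TopologicalSpace.induced (fun f : S => (f : Function.End Ω)) (fullTop Ω)

/-- `S` is a member of the class of closed submonoids of `Ω ^ Ω`. -/
def IsClosedMonoid {Ω : Type} (S : Submonoid (Function.End Ω)) : Prop :=
  @IsClosed _ (fullTop Ω) (S : Set (Function.End Ω))

/-- `S` has automatic continuity with respect to the closed submonoids of `Ω ^ Ω`: every semigroup
homomorphism from `S` to such a monoid is continuous. -/
def AutomaticContinuity {Ω : Type} (S : Submonoid (Function.End Ω)) : Prop :=
  ∀ T : Submonoid (Function.End Ω), IsClosedMonoid T → ∀ ξ : S →ₙ* T,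
    @Continuous S T (top S) (top T) ξ

/-- `S` has automatic homeomorphicity with respect to the closed submonoids of `Ω ^ Ω`: every
isomorphism from `S` onto such a monoid is a homeomorphism. -/
def AutomaticHomeomorphicity {Ω : Type} (S : Submonoid (Function.End Ω)) : Prop :=
  ∀ T : Submonoid (Function.End Ω), IsClosedMonoid T → ∀ ξ : S ≃* T,
    @IsHomeomorph S T (top S) (top T) ξ

/-- `S` is oligomorphic: the group of invertible elements of `S` has only finitely many orbits
on `Ω ^ n` for every `n`. -/
def Oligomorphic {Ω : Type} (S : Submonoid (Function.End Ω)) : Prop :=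
  ∀ n : ℕ, Finite (MulAction.orbitRel.Quotient Sˣ (Fin n → Ω))

/-- The permutations given by the invertible elements of `S`. -/
def units {Ω : Type} (S : Submonoid (Function.End Ω)) : Subgroup (Equiv.Perm Ω) where
  carrier := {g | ∃ a : Sˣ, ((a : S) : Function.End Ω) = (g : Ω → Ω)}
  mul_mem' := by
    rintro g h ⟨a, ha⟩ ⟨b, hb⟩
    refine ⟨a * b, ?_⟩
    rw [Units.val_mul, Submonoid.coe_mul, ha, hb]
    rfl
  one_mem' := ⟨1, rfl⟩
  inv_mem' := by
    rintro g ⟨a, ha⟩
    refine ⟨a⁻¹, ?_⟩
    have h1 : ((a⁻¹ : Sˣ) : S) * (a : S) = 1 := by simp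
    have h2 : (((a⁻¹ : Sˣ) : S) : Function.End Ω) * ((a : S) : Function.End Ω) = 1 := by
      rw [← Submonoid.coe_mul, h1]; rfl
    rw [ha] at h2
    funext x
    have h3 := congrFun h2 (g⁻¹ x)
    have h4 : (((a⁻¹ : Sˣ) : S) : Function.End Ω) (g (g⁻¹ x)) = g⁻¹ x := h3
    rw [show g (g⁻¹ x) = x by simp] at h4
    exact h4

theorem units_mem {Ω : Type} (S : Submonoid (Function.End Ω)) (a : Sˣ) :
    ∃ g ∈ units S, ∀ x : Ω, g x = (a : S).1 x := by
  have h1 : ((a⁻¹ : Sˣ) : S) * (a : S) = 1 := by simp
  have h2 : (((a⁻¹ : Sˣ) : S) : Function.End Ω) * ((a : S) : Function.End Ω) = 1 := by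
    rw [← Submonoid.coe_mul, h1]; rfl
  have h3 : (a : S) * ((a⁻¹ : Sˣ) : S) = 1 := by simp
  have h4 : ((a : S) : Function.End Ω) * (((a⁻¹ : Sˣ) : S) : Function.End Ω) = 1 := by
    rw [← Submonoid.coe_mul, h3]; rfl
  refine ⟨⟨(a : S).1, ((a⁻¹ : Sˣ) : S).1, congrFun h2, congrFun h4⟩, ⟨a, rfl⟩, fun x => rfl⟩

theorem oligSet_units {Ω : Type} (S : Submonoid (Function.End Ω)) (hS : Oligomorphic S) :
    OligSet (units S) := by
  classical
  intro n
  rcases isEmpty_or_nonempty Ω with hΩ | hΩ
  · exact ⟨∅, Set.finite_empty, fun s => (hΩ.false (s 0)).elim⟩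
  obtain ⟨x0⟩ := hΩ
  have hfin := hS n
  let T : Set (ℕ → Ω) := Set.range (fun q : MulAction.orbitRel.Quotient Sˣ (Fin n → Ω) =>
    (fun k : ℕ => if h : k < n then q.out ⟨k, h⟩ else x0))
  refine ⟨T, Set.finite_range _, fun s => ?_⟩
  let v : Fin n → Ω := fun i => s i
  let q : MulAction.orbitRel.Quotient Sˣ (Fin n → Ω) := Quotient.mk'' v
  refine ⟨_, ⟨q, rfl⟩, ?_⟩
  have h1 : (Quotient.mk'' q.out : MulAction.orbitRel.Quotient Sˣ (Fin n → Ω)) = Quotient.mk'' v :=
    Quotient.out_eq' q
  have h2 : MulAction.orbitRel Sˣ (Fin n → Ω) q.out v := Quotient.exact' h1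
  rw [MulAction.orbitRel_apply] at h2
  obtain ⟨a, ha⟩ := h2
  obtain ⟨g, hg, hga⟩ := units_mem S a
  refine ⟨g, hg, fun k hk => ?_⟩
  rw [hga]
  simp only [hk, dif_pos]
  have := congrFun ha ⟨k, hk⟩
  exact this

/-- **Minimality for closed transformation monoids.** -/
theorem minimal_monoid {Ω : Type} [Countable Ω] (S : Submonoid (Function.End Ω))
    (hS : IsClosedMonoid S) (hol : Oligomorphic S) (τ : TopologicalSpace S)
    (hT2 : @T2Space S τ)
    (hcont : @Continuous (S × S) S (@instTopologicalSpaceProd S S τ τ) τ fun p => p.1 * p.2)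
    (hle : top S ≤ τ) : τ = top S := by
  refine minimal (fun f : S => ((f : Function.End Ω) : Ω → Ω)) (fun a b => a * b) ?_ ?_ (units S)
    (oligSet_units S hol) ?_ τ hT2 hcont hle
  · intro a b; rfl
  · intro f hf
    have : f ∈ @closure _ (fullTop Ω) (S : Set (Function.End Ω)) := by
      let _ : TopologicalSpace Ω := ⊥
      have hd : DiscreteTopology Ω := ⟨rfl⟩
      change f ∈ @closure (Ω → Ω) Pi.topologicalSpace (S : Set (Function.End Ω))
      rw [mem_closure_iff]
      intro o ho hfo
      obtain ⟨I, u, hu1, hu2⟩ := isOpen_pi_iff.1 ho f hfo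
      obtain ⟨a, ha⟩ := hf I
      refine ⟨a.1, hu2 fun x hx => ?_, a.2⟩
      rw [ha x hx]
      exact (hu1 x hx).2
    rw [@IsClosed.closure_eq _ (fullTop Ω) _ hS] at this
    exact ⟨⟨f, this⟩, rfl⟩
  · rintro g ⟨a, ha⟩
    exact ⟨a, ha⟩

/-- The multiplication of a transformation monoid is continuous. -/
theorem continuous_mul_top {Ω : Type} (S : Submonoid (Function.End Ω)) :
    @Continuous (S × S) S (@instTopologicalSpaceProd S S (top S) (top S)) (top S)
      fun p => p.1 * p.2 := by
  let _ : TopologicalSpace Ω := ⊥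
  have hd : DiscreteTopology Ω := ⟨rfl⟩
  let _ : TopologicalSpace S := top S
  have h0 : Continuous (fun (f : S) (x : Ω) => (f : Function.End Ω) x) := continuous_induced_dom
  have h1 : ∀ x : Ω, Continuous (fun f : S => (f : Function.End Ω) x) := fun x =>
    (continuous_apply x).comp h0
  rw [continuous_induced_rng]
  refine continuous_pi fun x => ?_
  change Continuous (fun p : S × S => (p.1 : Function.End Ω) ((p.2 : Function.End Ω) x))
  rw [continuous_iff_continuousAt]
  intro p
  rw [ContinuousAt, congrFun (nhds_discrete Ω) _, tendsto_pure]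
  have h2 : ∀ᶠ q : S × S in 𝓝 p, (q.2 : Function.End Ω) x = (p.2 : Function.End Ω) x := by
    have := ((h1 x).comp continuous_snd).continuousAt (x := p)
    rw [ContinuousAt, congrFun (nhds_discrete Ω) _, tendsto_pure] at this
    exact this
  have h3 : ∀ᶠ q : S × S in 𝓝 p, (q.1 : Function.End Ω) ((p.2 : Function.End Ω) x) =
      (p.1 : Function.End Ω) ((p.2 : Function.End Ω) x) := by
    have := ((h1 ((p.2 : Function.End Ω) x)).comp continuous_fst).continuousAt (x := p)
    rw [ContinuousAt, congrFun (nhds_discrete Ω) _, tendsto_pure] at this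
    exact this
  filter_upwards [h2, h3] with q hq2 hq3
  rw [hq2, hq3]

theorem t2_top {Ω : Type} (S : Submonoid (Function.End Ω)) : @T2Space S (top S) := by
  let _ : TopologicalSpace Ω := ⊥
  have hd : DiscreteTopology Ω := ⟨rfl⟩
  let _ : TopologicalSpace S := top S
  have h0 : Continuous (fun (f : S) (x : Ω) => (f : Function.End Ω) x) := continuous_induced_dom
  exact T2Space.of_injective_continuous (f := fun (f : S) (x : Ω) => (f : Function.End Ω) x)
    Subtype.val_injective h0

/-- **Continuous injective homomorphisms are embeddings.** -/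
theorem embedding_of_continuous {Ω Ω' : Type} [Countable Ω] (S : Submonoid (Function.End Ω))
    (hS : IsClosedMonoid S) (hol : Oligomorphic S) (T : Submonoid (Function.End Ω')) (ξ : S →ₙ* T)
    (hinj : Function.Injective ξ) (hc : @Continuous S T (top S) (top T) ξ) :
    top S = TopologicalSpace.induced ξ (top T) := by
  let τ : TopologicalSpace S := TopologicalSpace.induced ξ (top T)
  have hle : top S ≤ τ := continuous_iff_le_induced.1 hc
  refine (minimal_monoid S hS hol τ ?_ ?_ hle).symm
  · letI : TopologicalSpace T := top T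
    have := t2_top T
    let _ : TopologicalSpace S := τ
    exact T2Space.of_injective_continuous (f := ξ) hinj continuous_induced_dom
  · letI : TopologicalSpace T := top T
    let _ : TopologicalSpace S := τ
    have h1 : Continuous (ξ : S → T) := continuous_induced_dom
    refine continuous_induced_rng.2 ?_
    have h2 : Continuous fun p : S × S => ξ p.1 * ξ p.2 :=
      (continuous_mul_top T).comp ((h1.comp continuous_fst).prodMk (h1.comp continuous_snd))
    refine h2.congr fun p => ?_
    simp

end Pool.Agent.R603.Mon
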